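import Pool.Agent.Lib.MP_4ac633_lc.Flat
import Pool.Agent.Lib.MP_4ac633_lc.Tail

/-!
# Algebraic immunity of bent functions that are affine on the cosets of a subspace

Let `f` be a bent function on `2 * m` bits whose second derivatives in the directions of an
`r`-dimensional subspace `U` vanish, i.e. `f` is affine on every coset of `U`. For `r = m` these are
exactly the functions of the completed Maiorana-McFarland class.
-/

set_option autoImplicit false

namespace Pool.Agent.Results.MP_4ac633_lc.NoMaioranaMcFarland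

open Finset Pool.Agent.Lib.MP_4ac633_lc

/-- `f` or `f + 1` has a nonzero annihilator of algebraic degree at most `d`. -/
def AILe (n : ℕ) (f : (Fin n → ZMod 2) → ZMod 2) (d : ℕ) : Prop :=
  ∃ g : (Fin n → ZMod 2) → ZMod 2, g ≠ 0 ∧
    ((∀ x, f x * g x = 0) ∨ (∀ x, (f x + 1) * g x = 0)) ∧
    ∃ c : Finset (Fin n) → ZMod 2, (∀ S, c S ≠ 0 → S.card ≤ d) ∧
      ∀ x, g x = ∑ S : Finset (Fin n), c S * ∏ i ∈ S, x i

theorem main (m r : ℕ) (f : (Fin (2 * m) → ZMod 2) → ZMod 2)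
    (hbent : ∀ a : Fin (2*m) → ZMod 2,
      (∑ x : Fin (2*m) → ZMod 2, (-1 : ℤ) ^ (f x + ∑ i, a i * x i).val) ^ 2 = 2 ^ (2*m))
    (U : Submodule (ZMod 2) (Fin (2*m) → ZMod 2)) (hU : Module.finrank (ZMod 2) U = r)
    (hr : r ≤ m)
    (haff : ∀ a ∈ U, ∀ b ∈ U, ∀ x, f (x + a + b) + f (x + a) + f (x + b) + f x = 0)
    (d : ℕ)
    (hd : r * ∑ i ∈ Icc d (2 * m - r), (2 * m - r).choose i
      + ∑ i ∈ Icc (d + 1) (2 * m - r), (2 * m - r).choose i + 4 ^ (m - r) / 2
      < 2 ^ (2 * m - r)) :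
    AILe (2 * m) f d := by
  classical
  obtain ⟨W, hW⟩ := Submodule.exists_isCompl U
  have hWr : Module.finrank (ZMod 2) W = 2 * m - r := by
    have h1 := Submodule.finrank_add_eq_of_isCompl hW
    rw [hU, Module.finrank_fin_fun] at h1
    omega
  let eW : (Fin (2 * m - r) → ZMod 2) ≃ₗ[ZMod 2] W :=
    LinearEquiv.ofFinrankEq _ _ (by rw [hWr, Module.finrank_fin_fun])
  let eU : (Fin r → ZMod 2) ≃ₗ[ZMod 2] U :=
    LinearEquiv.ofFinrankEq _ _ (by rw [hU, Module.finrank_fin_fun])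
  let θ : ((Fin (2 * m - r) → ZMod 2) × (Fin r → ZMod 2)) ≃ₗ[ZMod 2] (Fin (2 * m) → ZMod 2) :=
    (eW.prodCongr eU).trans (Submodule.prodEquivOfIsCompl W U hW.symm)
  have hθ : ∀ x y, θ (x, y) = (eW x : Fin (2 * m) → ZMod 2) + (eU y : Fin (2 * m) → ZMod 2) := by
    intro x y
    simp [θ]
  have hex : ∀ x : Fin (2 * m - r) → ZMod 2, ∃ a : Fin r → ZMod 2, ∀ y : Fin r → ZMod 2,
      f (θ (x, y)) = f (θ (x, 0)) + ∑ i, a i * y i := by
    intro x
    let L : (Fin r → ZMod 2) →+ ZMod 2 :=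
      { toFun := fun y => f (θ (x, y)) + f (θ (x, 0))
        map_zero' := by
          have : ∀ u : ZMod 2, u + u = 0 := by decide
          exact this _
        map_add' := by
          intro y y'
          have h1 := haff (eU y) (eU y).2 (eU y') (eU y').2 (θ (x, 0))
          have e0 : θ (x, 0) = (eW x : Fin (2 * m) → ZMod 2) := by
            rw [hθ, map_zero]; simp
          have e1 : θ (x, y + y') = θ (x, 0) + (eU y : Fin (2 * m) → ZMod 2) + eU y' := by
            rw [hθ, e0, map_add, Submodule.coe_add, add_assoc]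
          have e2 : ∀ z, θ (x, z) = θ (x, 0) + (eU z : Fin (2 * m) → ZMod 2) := by
            intro z
            rw [hθ, e0]
          rw [← e1, ← e2, ← e2] at h1
          have : ∀ p q s t : ZMod 2, p + q + s + t = 0 → p + t = q + t + (s + t) := by decide
          exact this _ _ _ _ h1 }
    let L' : (Fin r → ZMod 2) →ₗ[ZMod 2] ZMod 2 := AddMonoidHom.toZModLinearMap 2 L
    obtain ⟨a, ha⟩ := functional_eq_dot L'
    refine ⟨a, fun y => ?_⟩
    rw [← ha]
    change f (θ (x, y)) = f (θ (x, 0)) + (f (θ (x, y)) + f (θ (x, 0)))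
    have : ∀ p q : ZMod 2, p = q + (p + q) := by decide
    exact this _ _
  choose A hA using hex
  have hZ := flat_card m (2 * m - r) r hr θ f (fun i x => A x i) (fun x => f (θ (x, 0)))
    (fun x y => hA x y) hbent
  obtain ⟨c0, hc0⟩ : ∃ c0, c0 = (univ.filter (fun x : Fin (2 * m - r) → ZMod 2 =>
    (∀ i, A x i = 0) ∧ f (θ (x, 0)) = 1)).card := ⟨_, rfl⟩
  obtain ⟨c1, hc1⟩ : ∃ c1, c1 = (univ.filter (fun x : Fin (2 * m - r) → ZMod 2 =>
    (∀ i, A x i = 0) ∧ f (θ (x, 0)) + 1 = 1)).card := ⟨_, rfl⟩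
  have hsum : c0 + c1 = 4 ^ (m - r) := by
    rw [hc0, hc1, ← hZ, ← card_union_of_disjoint]
    · congr 1
      ext x
      simp only [mem_union, mem_filter, mem_univ, true_and]
      constructor
      · rintro (h | h)
        · exact h.1
        · exact h.1
      · intro h
        have : ∀ u : ZMod 2, u = 1 ∨ u + 1 = 1 := by decide
        rcases this (f (θ (x, 0))) with h' | h'
        · exact Or.inl ⟨h, h'⟩
        · exact Or.inr ⟨h, h'⟩
    · rw [disjoint_filter]
      rintro x _ ⟨_, h⟩ ⟨_, h'⟩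
      have : ∀ u : ZMod 2, u = 1 → u + 1 = 1 → False := by decide
      exact this _ h h'
  have hcase : c0 ≤ 4 ^ (m - r) / 2 ∨ c1 ≤ 4 ^ (m - r) / 2 := by omega
  rcases hcase with h | h
  · obtain ⟨g, hg0, hg1, hg2⟩ := exists_annihilator (2 * m) (2 * m - r) r d θ f
      (fun i x => A x i) (fun x => f (θ (x, 0))) (fun x y => hA x y) (by
        rw [← hc0]; omega)
    exact ⟨g, hg0, Or.inl hg1, anf_of_mem_Dg hg2⟩
  · obtain ⟨g, hg0, hg1, hg2⟩ := exists_annihilator (2 * m) (2 * m - r) r d θ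
      (fun x => f x + 1) (fun i x => A x i) (fun x => f (θ (x, 0)) + 1)
      (fun x y => by rw [hA x y]; ring) (by
        rw [← hc1]; omega)
    exact ⟨g, hg0, Or.inr hg1, anf_of_mem_Dg hg2⟩

theorem result : ∀ (m r : ℕ) (f : (Fin (2 * m) → ZMod 2) → ZMod 2),
    (∀ a : Fin (2*m) → ZMod 2,
      (∑ x : Fin (2*m) → ZMod 2, (-1 : ℤ) ^ (f x + ∑ i, a i * x i).val) ^ 2 = 2 ^ (2*m)) →
    ∀ U : Submodule (ZMod 2) (Fin (2*m) → ZMod 2), Module.finrank (ZMod 2) U = r → r ≤ m →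
    (∀ a ∈ U, ∀ b ∈ U, ∀ x, f (x + a + b) + f (x + a) + f (x + b) + f x = 0) →
    (∀ d : ℕ, r * ∑ i ∈ Icc d (2 * m - r), (2 * m - r).choose i
      + ∑ i ∈ Icc (d + 1) (2 * m - r), (2 * m - r).choose i + 4 ^ (m - r) / 2
      < 2 ^ (2 * m - r) → AILe (2 * m) f d) ∧
    (∀ d : ℕ, 1 ≤ r →
      (m - r / 2 : ℝ) + Real.sqrt ((m - r / 2 : ℝ) * Real.log (2 * r + 2)) ≤ d →
      AILe (2 * m) f d) ∧
    (r = m → 5 ≤ m → AILe (2 * m) f (m - 1)) := by
  intro m r f hbent U hU hr haff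
  refine ⟨fun d hd => main m r f hbent U hU hr haff d hd,
    fun d hr1 hd => main m r f hbent U hU hr haff d (numeric m r d hr1 hr hd), ?_⟩
  rintro rfl h5
  exact main r r f hbent U hU hr haff (r - 1) (numeric_top r h5)

end Pool.Agent.Results.MP_4ac633_lc.NoMaioranaMcFarland
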