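import Pool.Agent.Lib.MP_4ac633_lc.TDMain
import Pool.Agent.Lib.MP_4ac633_lc.FinalOfCount

set_option autoImplicit false

open Finset

namespace Pool.Agent.Results.MP_4ac633_lc.OptimalBent

/-- Boolean functions in `n` variables. -/
abbrev BoolFun (n : ℕ) : Type := (Fin n → ZMod 2) → ZMod 2

/-- `p` is the algebraic normal form of `f`: it is multilinear (degree at most one in each
variable) and represents `f`. -/
def IsANF {n : ℕ} (p : MvPolynomial (Fin n) (ZMod 2)) (f : BoolFun n) : Prop :=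
  (∀ i, p.degreeOf i ≤ 1) ∧ ∀ x, MvPolynomial.eval x p = f x

/-- The Walsh-Hadamard transform. -/
def walsh {n : ℕ} (f : BoolFun n) (y : Fin n → ZMod 2) : ℤ :=
  ∑ x : Fin n → ZMod 2, (-1) ^ (f x + ∑ i, x i * y i).val

/-- Bent functions (for even `n`). -/
def IsBent {n : ℕ} (f : BoolFun n) : Prop := ∀ y, |walsh f y| = 2 ^ (n / 2)

/-- The algebraic immunity: the least degree of (the algebraic normal form of) a Boolean function
`g ≠ 0` with `f g = 0` or `(f + 1) g = 0`. -/
noncomputable def AI {n : ℕ} (f : BoolFun n) : ℕ :=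
  sInf {d | ∃ g : BoolFun n, g ≠ 0 ∧ (f * g = 0 ∨ (f + 1) * g = 0) ∧
    ∃ p : MvPolynomial (Fin n) (ZMod 2), IsANF p g ∧ p.totalDegree = d}

/-! ### Multilinear polynomials and coefficient functions -/

/-- The exponent vector of a squarefree monomial. -/
noncomputable def ind {n : ℕ} (S : Finset (Fin n)) : Fin n →₀ ℕ := ∑ i ∈ S, Finsupp.single i 1

theorem ind_apply {n : ℕ} (S : Finset (Fin n)) (i : Fin n) : ind S i = if i ∈ S then 1 else 0 := by
  classical
  simp [ind, Finsupp.finsetSum_apply, Finsupp.single_apply]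

theorem ind_support {n : ℕ} (m : Fin n →₀ ℕ) (hm : ∀ i, m i ≤ 1) : ind m.support = m := by
  ext i
  rw [ind_apply]
  have := hm i
  split_ifs with h
  · rw [Finsupp.mem_support_iff] at h; omega
  · rw [Finsupp.mem_support_iff, not_not] at h; omega

theorem ind_injective {n : ℕ} : Function.Injective (ind (n := n)) := by
  intro S T h
  ext i
  have := DFunLike.congr_fun h i
  rw [ind_apply, ind_apply] at this
  by_cases h1 : i ∈ S <;> by_cases h2 : i ∈ T <;> simp_all

theorem le_one_of_mem {n : ℕ} {p : MvPolynomial (Fin n) (ZMod 2)} (hp : ∀ i, p.degreeOf i ≤ 1)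
    {m : Fin n →₀ ℕ} (hm : m ∈ p.support) (i : Fin n) : m i ≤ 1 :=
  (MvPolynomial.monomial_le_degreeOf i hm).trans (hp i)

theorem eval_eq {n : ℕ} (p : MvPolynomial (Fin n) (ZMod 2)) (hp : ∀ i, p.degreeOf i ≤ 1)
    (x : Fin n → ZMod 2) :
    MvPolynomial.eval x p = ∑ S : Finset (Fin n), p.coeff (ind S) * ∏ i ∈ S, x i := by
  classical
  rw [MvPolynomial.eval_eq]
  have h1 : ∀ S : Finset (Fin n), ∏ i ∈ S, x i = ∏ i, x i ^ (ind S i) := by
    intro S
    simp only [ind_apply, pow_ite, pow_one, pow_zero]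
    rw [Finset.prod_ite_mem, Finset.univ_inter]
  symm
  calc ∑ S : Finset (Fin n), p.coeff (ind S) * ∏ i ∈ S, x i
      = ∑ S ∈ (univ : Finset (Finset (Fin n))).filter (fun S => ind S ∈ p.support),
          p.coeff (ind S) * ∏ i ∈ S, x i := by
        rw [Finset.sum_filter]
        refine Finset.sum_congr rfl fun S _ => ?_
        split_ifs with h
        · rfl
        · rw [MvPolynomial.notMem_support_iff.1 h, zero_mul]
    _ = ∑ d ∈ p.support, p.coeff d * ∏ i ∈ d.support, x i ^ d i := by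
        refine Finset.sum_bij' (fun S _ => ind S) (fun d _ => d.support) ?_ ?_ ?_ ?_ ?_
        · intro S hS; exact (Finset.mem_filter.1 hS).2
        · intro d hd
          rw [Finset.mem_filter]
          refine ⟨Finset.mem_univ _, ?_⟩
          rw [ind_support d (le_one_of_mem hp hd)]
          exact hd
        · intro S hS
          ext i
          rw [Finsupp.mem_support_iff, ind_apply]
          by_cases h : i ∈ S <;> simp [h]
        · intro d hd
          exact ind_support d (le_one_of_mem hp hd)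
        · intro S hS
          congr 1
          rw [h1 S]
          symm
          refine Finset.prod_subset (Finset.subset_univ _) fun i _ hi => ?_
          rw [Finsupp.notMem_support_iff.1 hi, pow_zero]

theorem card_le_of_coeff {n : ℕ} (p : MvPolynomial (Fin n) (ZMod 2)) (S : Finset (Fin n))
    (h : p.coeff (ind S) ≠ 0) : S.card ≤ p.totalDegree := by
  classical
  have h1 := MvPolynomial.le_totalDegree (MvPolynomial.mem_support_iff.2 h)
  have h2 : (ind S).sum (fun _ e => e) = S.card := by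
    rw [Finsupp.sum_fintype _ _ (fun _ => rfl)]
    simp [ind_apply]
  rwa [h2] at h1

/-- The multilinear polynomial with given coefficients. -/
noncomputable def poly {n : ℕ} (c : Finset (Fin n) → ZMod 2) : MvPolynomial (Fin n) (ZMod 2) :=
  ∑ S, MvPolynomial.monomial (ind S) (c S)

theorem coeff_poly {n : ℕ} (c : Finset (Fin n) → ZMod 2) (m : Fin n →₀ ℕ)
    (h : (poly c).coeff m ≠ 0) : ∃ S, ind S = m ∧ c S ≠ 0 := by
  classical
  rw [poly, MvPolynomial.coeff_sum] at h
  obtain ⟨S, -, hS⟩ := Finset.exists_ne_zero_of_sum_ne_zero h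
  rw [MvPolynomial.coeff_monomial] at hS
  by_cases h1 : ind S = m
  · exact ⟨S, h1, by simpa [h1] using hS⟩
  · simp [h1] at hS

theorem poly_isANF {n : ℕ} (c : Finset (Fin n) → ZMod 2) (g : BoolFun n)
    (hg : ∀ x, g x = ∑ S : Finset (Fin n), c S * ∏ i ∈ S, x i) : IsANF (poly c) g := by
  classical
  refine ⟨fun i => ?_, fun x => ?_⟩
  · rw [MvPolynomial.degreeOf_le_iff]
    intro m hm
    obtain ⟨S, rfl, -⟩ := coeff_poly c m (MvPolynomial.mem_support_iff.1 hm)
    rw [ind_apply]
    split_ifs <;> omega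
  · rw [hg x, poly, map_sum]
    refine Finset.sum_congr rfl fun S _ => ?_
    rw [MvPolynomial.eval_monomial]
    congr 1
    rw [Finsupp.prod_fintype _ _ (fun _ => pow_zero _)]
    simp only [ind_apply, pow_ite, pow_one, pow_zero]
    rw [Finset.prod_ite_mem, Finset.univ_inter]

theorem poly_totalDegree {n d : ℕ} (c : Finset (Fin n) → ZMod 2)
    (hc : ∀ S, c S ≠ 0 → S.card ≤ d) : (poly c).totalDegree ≤ d := by
  classical
  refine Finset.sup_le fun m hm => ?_
  obtain ⟨S, rfl, hS⟩ := coeff_poly c m (MvPolynomial.mem_support_iff.1 hm)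
  have h2 : (ind S).sum (fun _ e => e) = S.card := by
    rw [Finsupp.sum_fintype _ _ (fun _ => rfl)]
    simp [ind_apply]
  rw [h2]
  exact hc S hS

/-- **Bent functions with optimal algebraic immunity exist in every even number of variables.** -/
theorem result (n : ℕ) (hn : Even n) : ∃ f : BoolFun n, IsBent f ∧ AI f = n / 2 := by
  classical
  obtain ⟨m, rfl⟩ := even_iff_two_dvd.1 hn
  have hdiv : 2 * m / 2 = m := by omega
  obtain ⟨f, h1, h2⟩ := Pool.Agent.Lib.MP_4ac633_lc.frozen_of_count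
    (fun m t hm h0 ht => Pool.Agent.Lib.MP_4ac633_lc.TD.tuDeng m t hm h0 ht) m
  refine ⟨f, ?_, ?_⟩
  · intro y
    rw [hdiv]
    have h3 := h1 y
    have h4 : walsh f y = ∑ x : Fin (2*m) → ZMod 2, (-1 : ℤ) ^ (f x + ∑ i, y i * x i).val := by
      unfold walsh
      refine Finset.sum_congr rfl fun x _ => ?_
      simp only [mul_comm]
    rw [← h4] at h3
    have h5 : |walsh f y| ^ 2 = (2 ^ m) ^ 2 := by
      rw [sq_abs, h3, ← pow_mul, mul_comm]
    exact (pow_left_inj₀ (abs_nonneg _) (by positivity) two_ne_zero).1 h5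
  · rw [hdiv]
    have hann : ∀ g : BoolFun (2 * m), (f * g = 0 ∨ (f + 1) * g = 0) ↔
        ((∀ x, f x * g x = 0) ∨ (∀ x, (f x + 1) * g x = 0)) := by
      intro g
      simp only [funext_iff, Pi.mul_apply, Pi.zero_apply, Pi.add_apply, Pi.one_apply]
    have hlow : ∀ d, (∃ g : BoolFun (2 * m), g ≠ 0 ∧ (f * g = 0 ∨ (f + 1) * g = 0) ∧
        ∃ p : MvPolynomial (Fin (2 * m)) (ZMod 2), IsANF p g ∧ p.totalDegree = d) → m ≤ d := by
      rintro d ⟨g, hg, hfg, p, hp, rfl⟩
      refine (h2 _).1 ⟨g, hg, (hann g).1 hfg, fun S => p.coeff (ind S),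
        fun S hS => card_le_of_coeff p S hS, fun x => ?_⟩
      rw [← hp.2 x, eval_eq p hp.1]
    obtain ⟨g, hg, hfg, c, hc, hgc⟩ := (h2 m).2 le_rfl
    have hmem : (poly c).totalDegree ∈ {d | ∃ g : BoolFun (2 * m), g ≠ 0 ∧
        (f * g = 0 ∨ (f + 1) * g = 0) ∧
        ∃ p : MvPolynomial (Fin (2 * m)) (ZMod 2), IsANF p g ∧ p.totalDegree = d} :=
      ⟨g, hg, (hann g).2 hfg, poly c, poly_isANF c g hgc, rfl⟩
    apply le_antisymm
    · exact (Nat.sInf_le hmem).trans (poly_totalDegree c hc)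
    · exact hlow _ (Nat.sInf_mem ⟨_, hmem⟩)

end Pool.Agent.Results.MP_4ac633_lc.OptimalBent
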